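import Mathlib
set_option autoImplicit false

/-! # Block radial densities on the sphere: definitions

`a = (k-3)/2`, `L k u = ∫_0^∞ e^{-uy} (y^2 - 2iy)^a dy`, `mk k y = |(y^2-2iy)^a|`,
`Phi k u = ∫_{-1}^1 e^{ius} (1-s^2)^a ds`. -/

namespace Pool.Agent.H438R2.BR

open MeasureTheory Set Complex

/-- the symbol `(y^2 - 2 i y)^((k-3)/2)` -/
noncomputable def sy (k : ℕ) (y : ℝ) : ℂ :=
  (((y : ℂ) ^ 2 - 2 * I * (y : ℂ))) ^ ((((k : ℝ) - 3) / 2 : ℝ) : ℂ)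

/-- Laplace transform of the symbol -/
noncomputable def L (k : ℕ) (u : ℝ) : ℂ :=
  ∫ y in Ioi (0 : ℝ), ((Real.exp (-(u * y)) : ℝ) : ℂ) * sy k y

/-- Poisson integral for the Bessel function -/
noncomputable def Phi (k : ℕ) (u : ℝ) : ℂ :=
  ∫ s in Ioo (-1 : ℝ) 1, Complex.exp (((u * s : ℝ) : ℂ) * I) *
    (((1 - s ^ 2) ^ (((k : ℝ) - 3) / 2) : ℝ) : ℂ)

/-- the quarter circle parameter set -/
def Q : Set ℝ := Ioo 0 (Real.pi / 2)

/-- The planar profile of the Fourier transform of a block radial density. -/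
noncomputable def F (k m : ℕ) (G : ℝ → ℂ) (r t : ℝ) : ℂ :=
  ∫ θ in Q, G θ * (((Real.cos θ) ^ (k - 1) * (Real.sin θ) ^ (m - 1) : ℝ) : ℂ) *
    (Phi k (r * Real.cos θ) * Phi m (t * Real.sin θ))

/-- the weight `min(1, 1/(A y))^(k-1)` -/
noncomputable def w (k : ℕ) (A y : ℝ) : ℝ := (min 1 (1 / (A * y))) ^ (k - 1)

/-- the dyadic bump `(r/A)^q e^{-r/A}` -/
noncomputable def ka (q : ℕ) (A r : ℝ) : ℝ := (r / A) ^ q * Real.exp (-(r / A))

/-- the kernel `A/(1+A^2 x^2)` -/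
noncomputable def K (A x : ℝ) : ℝ := A / (1 + A ^ 2 * x ^ 2)

end Pool.Agent.H438R2.BR
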