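import Mathlib
import Pool.Agent.H72.Lib.S8.H438R2.BR.Defs
import Pool.Agent.H72.Lib.S8.H789R2.FR.Defs
import Pool.Agent.H72.Lib.S8.H789R2.FR.Sph
import Pool.Agent.H72.Lib.S8.H438R2.BR.JDef
import Pool.Agent.H72.Lib.S8.H438R2.BR.T9
set_option autoImplicit false

namespace Pool.Agent.H438R2.BR

open MeasureTheory Set Complex
open scoped ENNReal RealInnerProductSpace
open Pool.Agent.H789R2.FR (E sg)

namespace T10

/-- the unit vector of the line -/
noncomputable def e0 : E 1 := EuclideanSpace.single 0 1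

theorem e0_norm : ‖e0‖ = 1 := by simp [e0]

theorem e0_ne : e0 ≠ -e0 := by
  intro h
  have h1 := congrArg (fun v : E 1 => v 0) h
  simp [e0] at h1
  norm_num at h1

theorem norm_one_iff (w : E 1) (hw : ‖w‖ = 1) : w = e0 ∨ w = -e0 := by
  have h1 : ‖w‖ = |w 0| := by
    rw [EuclideanSpace.norm_eq]
    simp [Real.sqrt_sq_eq_abs]
  rw [h1] at hw
  rcases (abs_eq (zero_le_one)).1 hw with h | h
  · left
    ext i
    fin_cases i
    simp [e0, h]
  · right
    ext i
    fin_cases i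
    simp [e0, h]

theorem sg_one_univ : sg 1 univ = 2 := by
  rw [Pool.Agent.H789R2.FR.sg_apply MeasurableSet.univ, preimage_univ,
    Measure.toSphere_apply_univ, EuclideanSpace.volume_ball]
  simp only [finrank_euclideanSpace, Fintype.card_fin, Nat.cast_one, one_mul, ENNReal.ofReal_one,
    pow_one]
  have h1 : Real.Gamma (1 / 2 + 1) = 1 / 2 * √Real.pi := by
    rw [Real.Gamma_add_one (by norm_num), Real.Gamma_one_half_eq]
  rw [h1]
  have h2 : √Real.pi / (1 / 2 * √Real.pi) = 2 := by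
    have : √Real.pi ≠ 0 := (Real.sqrt_pos.2 Real.pi_pos).ne'
    field_simp
  rw [h2]
  norm_num

theorem sg_one (h : E 1 → ℝ≥0∞) : ∫⁻ u, h u ∂(sg 1) = h e0 + h (-e0) := by
  have hae : ∀ᵐ w ∂(sg 1), w ∈ ({e0, -e0} : Set (E 1)) := by
    filter_upwards [Pool.Agent.H789R2.FR.sg_ae 1] with w hw
    rcases norm_one_iff w hw with h | h
    · left; exact h
    · right; exact h
  have hr : (sg 1).restrict ({e0, -e0} : Set (E 1)) = sg 1 := Measure.restrict_eq_self_of_ae_mem hae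
  have hne : e0 ∉ ({-e0} : Set (E 1)) := fun h => e0_ne h
  have key : ∀ g : E 1 → ℝ≥0∞, ∫⁻ u, g u ∂(sg 1) = g e0 * sg 1 {e0} + g (-e0) * sg 1 {-e0} := by
    intro g
    conv_lhs => rw [← hr]
    rw [lintegral_insert hne, lintegral_singleton]
  have hsym : sg 1 {e0} = sg 1 {-e0} := by
    have h1 := (Pool.Agent.H789R2.FR.sg_inv (n := 1) (LinearIsometryEquiv.neg ℝ)).measure_preimage
      (measurableSet_singleton e0).nullMeasurableSet
    rw [← h1]
    congr 1
    ext w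
    simp only [mem_preimage, LinearIsometryEquiv.coe_neg, mem_singleton_iff]
    exact neg_eq_iff_eq_neg
  have htot := key (fun _ => 1)
  rw [lintegral_const, sg_one_univ, hsym] at htot
  simp only [one_mul] at htot
  have h1 : sg 1 {-e0} = 1 := by
    have h2 : (2 : ℝ≥0∞) * sg 1 {-e0} = 2 * 1 := by
      rw [two_mul, ← htot, mul_one]
    exact (ENNReal.mul_right_inj (by norm_num) (by norm_num)).1 h2
  rw [key h, hsym, h1, mul_one, mul_one]

/-- the density of a coordinate on the sphere -/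
noncomputable def rho (m : ℕ) : Measure ℝ :=
  (volume.restrict (Ioo (-1 : ℝ) 1)).withDensity
    (fun s => ENNReal.ofReal ((1 - s ^ 2) ^ (((m : ℝ) - 2) / 2)))

theorem meas_dens (m : ℕ) :
    Measurable (fun s : ℝ => ENNReal.ofReal ((1 - s ^ 2) ^ (((m : ℝ) - 2) / 2))) := by
  fun_prop

theorem image_cos : Real.cos '' Q = Ioo 0 1 := by
  ext s
  constructor
  · rintro ⟨θ, hθ, rfl⟩
    refine ⟨Real.cos_pos_of_mem_Ioo ⟨by linarith [hθ.1, Real.pi_pos], hθ.2⟩, ?_⟩
    rw [← Real.cos_zero]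
    exact Real.cos_lt_cos_of_nonneg_of_le_pi_div_two le_rfl hθ.2.le hθ.1
  · intro hs
    refine ⟨Real.arccos s, ⟨Real.arccos_pos.2 hs.2, Real.arccos_lt_pi_div_two.2 hs.1⟩,
      Real.cos_arccos (by linarith [hs.1]) hs.2.le⟩

theorem half (m : ℕ) (hm : 1 ≤ m) (g : ℝ → ℝ≥0∞) :
    ∫⁻ s in Ioo (0 : ℝ) 1, ENNReal.ofReal ((1 - s ^ 2) ^ (((m : ℝ) - 2) / 2)) * g s =
      ∫⁻ θ in Q, ENNReal.ofReal ((Real.sin θ) ^ (m - 1)) * g (Real.cos θ) := by
  rw [← image_cos, lintegral_image_eq_lintegral_abs_deriv_mul (f' := fun θ => -Real.sin θ)]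
  · refine setLIntegral_congr_fun (measurableSet_Ioo) fun θ hθ => ?_
    have hs : 0 < Real.sin θ := Real.sin_pos_of_pos_of_lt_pi hθ.1 (by
      have := hθ.2; linarith [Real.pi_pos])
    have h1 : 1 - Real.cos θ ^ 2 = Real.sin θ ^ 2 := by
      have := Real.sin_sq_add_cos_sq θ; linarith
    rw [← mul_assoc, ← ENNReal.ofReal_mul (abs_nonneg _), abs_neg, abs_of_pos hs, h1]
    congr 2
    rw [← Real.rpow_natCast (Real.sin θ) 2, ← Real.rpow_mul hs.le]
    have h2 : Real.sin θ = (Real.sin θ) ^ (1 : ℝ) := (Real.rpow_one _).symm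
    nth_rewrite 1 [h2]
    rw [← Real.rpow_add hs, ← Real.rpow_natCast]
    congr 1
    rw [Nat.cast_sub hm]
    push_cast
    ring
  · exact measurableSet_Ioo
  · intro θ _
    exact (Real.hasDerivAt_cos θ).hasDerivWithinAt
  · intro a ha b hb hab
    exact Real.injOn_cos ⟨ha.1.le, by have := ha.2; linarith [Real.pi_pos]⟩
      ⟨hb.1.le, by have := hb.2; linarith [Real.pi_pos]⟩ hab

theorem lintegral_rho (m : ℕ) (hm : 1 ≤ m) (g : ℝ → ℝ≥0∞) (hg : Measurable g) :
    ∫⁻ s, g s ∂(rho m) =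
      ∫⁻ θ in Q, ENNReal.ofReal ((Real.sin θ) ^ (m - 1)) * (g (Real.cos θ) + g (-Real.cos θ)) := by
  unfold rho
  rw [lintegral_withDensity_eq_lintegral_mul _ (meas_dens m) hg]
  simp only [Pi.mul_apply]
  set d : ℝ → ℝ≥0∞ := fun s => ENNReal.ofReal ((1 - s ^ 2) ^ (((m : ℝ) - 2) / 2)) with hd
  have hsplit : ∫⁻ s in Ioo (-1 : ℝ) 1, d s * g s =
      (∫⁻ s in Ioo (-1 : ℝ) 0, d s * g s) + ∫⁻ s in Ioo (0 : ℝ) 1, d s * g s := by
    have h1 : Ioo (-1 : ℝ) 1 = Ioo (-1) 0 ∪ Ico 0 1 := by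
      rw [Ioo_union_Ico_eq_Ioo (by norm_num) (by norm_num)]
    rw [h1, lintegral_union measurableSet_Ico (by
      rw [Set.disjoint_left]
      intro x hx hx'
      linarith [hx.2, hx'.1]), setLIntegral_congr (Ioo_ae_eq_Ico (a := (0:ℝ)) (b := 1)).symm]
  have hneg : ∫⁻ s in Ioo (-1 : ℝ) 0, d s * g s = ∫⁻ s in Ioo (0 : ℝ) 1, d s * g (-s) := by
    have hmp := Measure.measurePreserving_neg (volume : Measure ℝ)
    have h2 := hmp.setLIntegral_comp_emb (MeasurableEquiv.neg ℝ).measurableEmbedding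
      (fun s => d s * g s) (Ioo (0 : ℝ) 1)
    have h3 : (fun x : ℝ => -x) '' Ioo (0 : ℝ) 1 = Ioo (-1) 0 := by
      rw [Set.image_neg_eq_neg, Set.neg_Ioo]
      simp
    rw [← h3]
    rw [← h2]
    refine lintegral_congr fun s => ?_
    simp only [hd, neg_sq]
  have e : ∫⁻ s in Ioo (-1 : ℝ) 1, ENNReal.ofReal ((1 - s ^ 2) ^ (((m : ℝ) - 2) / 2)) * g s =
      ∫⁻ s in Ioo (-1 : ℝ) 1, d s * g s := rfl
  rw [e, hsplit, hneg]
  have h4 := half m hm g
  have h5 := half m hm (fun s => g (-s))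
  rw [h4, h5, ← lintegral_add_left]
  · refine lintegral_congr fun θ => ?_
    rw [mul_add, add_comm]
  · fun_prop

theorem map_coord (m : ℕ) (hm : 1 ≤ m) :
    Measure.map (fun z : E (1 + m) => (⟪J e0 (0 : E m), z⟫ : ℝ)) (sg (1 + m)) =
      sg m univ • rho m := by
  have hmeas : Measurable (fun z : E (1 + m) => (⟪J e0 (0 : E m), z⟫ : ℝ)) := by fun_prop
  refine Measure.ext_of_lintegral _ fun g hg => ?_
  rw [lintegral_map hg hmeas, bipolar 1 m le_rfl hm (fun z => g (⟪J e0 (0 : E m), z⟫ : ℝ))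
    (hg.comp hmeas), lintegral_smul_measure,
    lintegral_rho m hm g hg, smul_eq_mul, ← lintegral_const_mul]
  · refine setLIntegral_congr_fun measurableSet_Ioo fun θ _ => ?_
    have h1 : ∀ (u : E 1) (v : E m),
        (⟪J e0 (0 : E m), J (Real.cos θ • u) (Real.sin θ • v)⟫ : ℝ) = Real.cos θ * ⟪e0, u⟫ := by
      intro u v
      rw [J_inner, inner_zero_left, add_zero, real_inner_smul_right]
    simp only [h1]
    simp only [lintegral_const]
    rw [sg_one]
    have h2 : (⟪e0, e0⟫ : ℝ) = 1 := by rw [real_inner_self_eq_norm_sq, e0_norm]; norm_num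
    have h3 : (⟪e0, -e0⟫ : ℝ) = -1 := by rw [inner_neg_right, h2]
    rw [h2, h3]
    simp only [Nat.sub_self, pow_zero, one_mul, mul_one, mul_neg]
    ring
  · fun_prop

end T10

open T10

theorem sphere_ft (k : ℕ) (hk : 2 ≤ k) (x : E k) :
    ∫ v, Complex.exp (-((⟪x, v⟫ : ℝ) : ℂ) * I) ∂(sg k) =
      ((sg (k - 1)).real univ : ℂ) * Phi k ‖x‖ := by
  obtain ⟨m, rfl⟩ : ∃ m, k = 1 + m := ⟨k - 1, by omega⟩
  have hm : 1 ≤ m := by omega
  rw [Nat.add_sub_cancel_left]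
  -- rotation
  set x1 : E (1 + m) := J e0 (0 : E m) with hx1
  have hx1n : ‖x1‖ = 1 := by
    have h1 : ‖x1‖ ^ 2 = 1 := by
      rw [← real_inner_self_eq_norm_sq, hx1, J_inner, real_inner_self_eq_norm_sq, e0_norm]
      simp
    have h2 := norm_nonneg x1
    nlinarith
  set y : E (1 + m) := (-‖x‖) • x1 with hy
  have hyn : ‖x‖ = ‖y‖ := by
    rw [hy, norm_smul, hx1n, norm_neg, norm_norm, mul_one]
  set R : E (1 + m) ≃ₗᵢ[ℝ] E (1 + m) := (ℝ ∙ (x - y))ᗮ.reflection with hR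
  have hRx : R x = y := Submodule.reflection_sub hyn
  have hmp := Pool.Agent.H789R2.FR.sg_inv R
  have hemb : MeasurableEmbedding R := R.toHomeomorph.measurableEmbedding
  have step1 : ∫ v, Complex.exp (-((⟪x, v⟫ : ℝ) : ℂ) * I) ∂(sg (1 + m)) =
      ∫ v, Complex.exp (-((⟪y, v⟫ : ℝ) : ℂ) * I) ∂(sg (1 + m)) := by
    rw [← hmp.integral_comp hemb (fun v => Complex.exp (-((⟪y, v⟫ : ℝ) : ℂ) * I))]
    refine integral_congr_ae (Filter.Eventually.of_forall fun v => ?_)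
    simp only
    rw [← hRx, R.inner_map_map]
  rw [step1]
  have step2 : ∀ v : E (1 + m), Complex.exp (-((⟪y, v⟫ : ℝ) : ℂ) * I) =
      (fun s : ℝ => Complex.exp (((‖x‖ * s : ℝ) : ℂ) * I)) (⟪x1, v⟫ : ℝ) := by
    intro v
    simp only
    rw [hy, real_inner_smul_left]
    congr 2
    push_cast
    ring
  simp only [step2]
  have hmeas : Measurable (fun z : E (1 + m) => (⟪x1, z⟫ : ℝ)) := by fun_prop
  have hg : Measurable (fun s : ℝ => Complex.exp (((‖x‖ * s : ℝ) : ℂ) * I)) := by fun_prop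
  have step3 := integral_map (μ := sg (1 + m)) hmeas.aemeasurable
    (f := fun s : ℝ => Complex.exp (((‖x‖ * s : ℝ) : ℂ) * I)) hg.aestronglyMeasurable
  rw [← step3, hx1, map_coord m hm, integral_smul_measure]
  unfold rho
  rw [integral_withDensity_eq_integral_toReal_smul (meas_dens m)
    (Filter.Eventually.of_forall fun _ => ENNReal.ofReal_lt_top)]
  have step4 : ∫ s in Ioo (-1 : ℝ) 1, (ENNReal.ofReal ((1 - s ^ 2) ^ (((m : ℝ) - 2) / 2))).toReal •
      Complex.exp (((‖x‖ * s : ℝ) : ℂ) * I) = Phi (1 + m) ‖x‖ := by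
    unfold Phi
    refine setIntegral_congr_fun measurableSet_Ioo fun s hs => ?_
    have h1 : (0 : ℝ) ≤ 1 - s ^ 2 := by nlinarith [hs.1, hs.2]
    rw [ENNReal.toReal_ofReal (Real.rpow_nonneg h1 _), Complex.real_smul, mul_comm]
    congr 3
    push_cast
    ring
  rw [step4, Complex.real_smul]
  rfl

end Pool.Agent.H438R2.BR
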